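import Pool.Agent.MP_1246c0_nt.H25.SpecG

/-! The pairing at the last vertex of a cube. -/

namespace Pool.Agent.MP_1246c0_nt.H25

open NumberField Polynomial Finset Matrix Function Pool.Agent.MP_db5b97_nt.H85
open Pool.Agent.MP_1246c0_nt.H12

namespace CLP

variable {ι : Type} [Fintype ι] [DecidableEq ι] {ℓ : ℕ}

/-- the pairing as an additive map -/
noncomputable def pwH (Φ : Frm) (μ : Md ℓ) (pr : ι → ℕ) (P : ℕ) (w : Option ι ⊕ Bool → Vb ℓ) :
    (Ga → Fin ℓ → ℤ) →+ ℤ :=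
  AddMonoidHom.mk' (Pw Φ μ pr P w) fun a b => by
    unfold Pw
    rw [← sum_add_distrib]
    refine sum_congr rfl fun ρ _ => ?_
    rw [← dotProduct_add]
    congr 1
    simp only [Eo, Pi.add_apply, map_add, smul_add]
    abel

theorem row_eq (hC : SCC) {Φ : Frm} (hA : Ax1 Φ) {P : ℕ} {i1 : ι} {D : Finset ι} {a b : ι}
    {X : Set (ι → ℕ)} (hb : Cb Φ P i1 D a b X) {x x' : ι → ℕ} (hx : x ∈ X) (hx' : x' ∈ X)
    (ρ : Option ι ⊕ Bool) (hρ : ∀ o ∈ D, ρ ≠ .inl (some o)) :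
    rws Φ x P ρ = rws Φ x' P ρ ∧
      chi (dd x P) (rws Φ x P ρ).1 = chi (dd x' P) (rws Φ x P ρ).1 := by
  have o := hA.v.codd _ (hC.lab ι Φ x P i1 hA (hb.lb x hx)).2.1
  have o' := hA.v.codd _ (hC.lab ι Φ x' P i1 hA (hb.lb x' hx')).2.1
  have m := hb.m8 x hx x' hx'
  have m4 : dd x P % 4 = dd x' P % 4 := by omega
  rcases ρ with (_ | l) | (_ | _)
  · exact ⟨rfl, o.2.1.trans o'.2.1.symm⟩
  · have hl : l ∉ D := fun h => hρ l h rfl
    exact ⟨by simp only [rws, po, Option.elim, hb.fix x hx x' hx' l hl], hb.row x hx x' hx' l hl⟩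
  · exact ⟨rfl, (hA.v.ccj _).trans (hA.v.ccj _).symm⟩
  · refine ⟨by simp only [rws, p4, m], ?_⟩
    have f : chi (dd x P) Φ.f2 = chi (dd x' P) Φ.f2 := by rw [o.2.2, o'.2.2, m]
    simp only [rws, p4]
    split_ifs
    · exact o.2.1.trans o'.2.1.symm
    · rw [hA.z.cmul, hA.z.cmul, f, o.1, o'.1, eps, eps, m4]
    · exact f

theorem lf_zero : lf (0 : Vb ℓ) = 0 := rfl

theorem pw_eq (hC : SCC) {Φ : Frm} (hA : Ax1 Φ) {P : ℕ} {i1 : ι} {D : Finset ι} {a b : ι}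
    {X : Set (ι → ℕ)} (hb : Cb Φ P i1 D a b X) {x x' : ι → ℕ} (hx : x ∈ X) (hx' : x' ∈ X)
    (μ : Md ℓ) {w : Option ι ⊕ Bool → Vb ℓ} (hw : ∀ o ∈ D, w (.inl (some o)) = 0)
    (ψ : Ga → Fin ℓ → ℤ) : Pw Φ μ x P w ψ = Pw Φ μ x' P w ψ := by
  refine sum_congr rfl fun ρ _ => ?_
  by_cases hρ : ∀ o ∈ D, ρ ≠ .inl (some o)
  · obtain ⟨h1, h2⟩ := row_eq hC hA hb hx hx' ρ hρ
    rw [← h1, Eo, Eo, acn, acn, h2]
  · push Not at hρ
    obtain ⟨o, ho, rfl⟩ := hρ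
    rw [hw o ho, lf_zero, zero_dotProduct, zero_dotProduct]

end CLP

open CLP in
theorem rowCLP : OfCLP := by
  intro hC ι _ _ ℓ Φ μ P i1 D a b X v w ψ Γ x0 x1 hA hb hG hV hw
  have hD := hV D Subset.rfl
  have h0 : x0 ∈ X := by simpa using hV ∅ (empty_subset _)
  have ea : D.piecewise x1 x0 a = x1 a := piecewise_eq_of_mem _ _ _ hb.ad
  have z := fun h => hG.g3 D Subset.rfl hb.ad x0 x1 h hV
  have zs : ∀ l, l ∉ D → cW D x0 x1 (fun x => Γ x (Φ.sg (x0 l))) = 0 := fun l hl =>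
    have ne : l ≠ a := fun e => hl (e ▸ hb.ad)
    z _ (by
      refine .inr <| .inr <| .inr <| .inr <| .inr <| .inr <| .inr ⟨_, ((hb.lb _ h0).odd l).1,
        hb.nx _ h0 _ h0 l a ne, ?_, rfl⟩
      rw [← ea]
      exact hb.nx _ h0 _ hD l a ne)
  have e : clo D x0 x1 ψ Γ = (-1 : ℤ) ^ D.card • ((fun h => cW D x0 x1 fun x => Γ x h) -
      ∑ W ∈ D.powerset.erase D, (-1 : ℤ) ^ W.card • ψ (W.piecewise x1 x0)) := by
    funext h
    simp only [clo, Pi.smul_apply, Pi.sub_apply, Finset.sum_apply]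
  change pwH Φ μ _ P w _ = _
  rw [e, map_zsmul, map_sub, map_sum, smul_eq_mul]
  congr 2
  · change Pw Φ μ _ P w _ = _
    rw [pw_eq hC hA hb hD h0 μ hw, Pw, sum_eq_single (.inl (some b)) ?_ (by simp)]
    · simp only [Eo, rws, po, Option.elim, zs b hb.bd, map_zero, sub_zero, two_smul, two_mul,
        dotProduct_add]
    · have k : ∀ ρ, cW D x0 x1 (fun x => Γ x (rws Φ x0 P ρ).1) = 0 →
          cW D x0 x1 (fun x => Γ x (rws Φ x0 P ρ).2) = 0 →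
          lf (w ρ) ⬝ᵥ Eo (dd x0 P) μ.n (toLin' μ.g) (fun h => cW D x0 x1 fun x => Γ x h)
            (rws Φ x0 P ρ) = 0 := fun ρ h1 h2 => by
        simp only [Eo, h1, h2, map_zero, smul_zero, sub_zero, dotProduct_zero]
      rintro ((_ | l) | (_ | _)) - hρ
      · refine k _ (z _ (.inr (.inl rfl))) (z _ ?_)
        refine .inr <| .inr <| .inr <| .inr <| .inr <| .inr <| .inr ⟨2, Nat.prime_two,
          ((hb.lb _ h0).odd a).2.1.symm, ?_, rfl⟩
        rw [← ea]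
        exact ((hb.lb _ hD).odd a).2.1.symm
      · by_cases hl : l ∈ D
        · rw [hw l hl, lf_zero, zero_dotProduct]
        · exact k _ (z _ (.inr <| .inr <| .inr <| .inr <| .inr <| .inr <| .inl
            ⟨l, hl, fun e => hρ (e ▸ rfl), rfl⟩)) (zs l hl)
      · exact k _ (z _ (by simp [Qs, rws])) (z _ (by simp [Qs, rws]))
      · refine k _ (z _ ?_) (z _ ?_) <;> simp only [rws, p4] <;> split_ifs <;> simp [Qs]
  · refine sum_congr rfl fun W hW => ?_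
    rw [map_zsmul, smul_eq_mul]
    exact congrArg _ (pw_eq hC hA hb hD (hV W (mem_powerset.1 (mem_of_mem_erase hW))) μ hw _)

end Pool.Agent.MP_1246c0_nt.H25
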