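import Pool.Agent.MP_1246c0_nt.H25.SpecA
import Pool.Agent.MP_db5b97_nt.H85.NT

/-! The character of Kummer. -/

namespace Pool.Agent.MP_1246c0_nt.H25

open NumberField IsDedekindDomain Polynomial Pool.Agent.MP_db5b97_nt.H85
open Pool.Agent.MP_1246c0_nt.H12

namespace KUM

theorem k0 {x : Om} {h : Ga} : kch x h = 0 ↔ h (sqr x) = sqr x := by
  unfold kch
  split_ifs with e <;> simp [e]

theorem ext2 {a b : F2} (h : a = 0 ↔ b = 0) : a = b := by
  revert a b
  decide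

theorem add2 {a b c : F2} (h : a = 0 ↔ (b = 0 ↔ c = 0)) : a = b + c := by
  revert a b c
  decide

theorem sqr_sq (x : Om) : sqr x ^ 2 = x := by rw [sq, sqr_mul]

theorem pm {x z : Om} {h : Ga} (hz : z ^ 2 = x) (hx : h x = x) : h z = z ∨ h z = -z :=
  sq_eq_sq_iff_eq_or_eq_neg.1 (by rw [← map_pow, hz, hx])

theorem ksq {x z : Om} (h : Ga) (hz : z ^ 2 = x) : kch x h = 0 ↔ h z = z := by
  rw [k0]
  rcases sq_eq_sq_iff_eq_or_eq_neg.1 (hz.trans (sqr_sq x).symm) with e | e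
  · rw [e]
  · rw [e, map_neg, neg_inj]

theorem neg_ne {z : Om} (hz : z ≠ 0) : -z ≠ z := fun e => hz (by linear_combination (-1 / 2 : Om) * e)

theorem mul (x : Om) (h h' : Ga) (e : h x = x) (e' : h' x = x) :
    kch x (h * h') = kch x h + kch x h' := by
  refine add2 ?_
  rw [k0, k0, k0, AlgEquiv.mul_apply]
  by_cases h0 : sqr x = 0
  · simp [h0]
  have n := neg_ne h0
  rcases pm (sqr_sq x) e with a | a <;> rcases pm (sqr_sq x) e' with b | b <;> simp [a, b, n]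

theorem mul' (x y : Om) (h : Ga) (hx : x ≠ 0) (hy : y ≠ 0) (e : h x = x) (e' : h y = y) :
    kch (x * y) h = kch x h + kch y h := by
  refine add2 ?_
  have x0 : sqr x ≠ 0 := fun h0 => hx (by rw [← sqr_mul x, h0, mul_zero])
  have y0 : sqr y ≠ 0 := fun h0 => hy (by rw [← sqr_mul y, h0, mul_zero])
  rw [ksq h (z := sqr x * sqr y) (by rw [mul_pow, sqr_sq, sqr_sq]), k0, k0, map_mul]
  have n := neg_ne x0
  have n' := neg_ne y0
  have n'' := neg_ne (mul_ne_zero x0 y0)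
  rcases pm (sqr_sq x) e with a | a <;> rcases pm (sqr_sq y) e' with b | b <;>
    simp only [a, b, n, n', n'', mul_neg, neg_mul, neg_neg, iff_self, iff_true, iff_false,
      not_true]

theorem cnj (x : Om) (g h : Ga) : kch x (g⁻¹ * h * g) = kch (g x) h := by
  refine ext2 ?_
  rw [k0, ksq h (z := g (sqr x)) (by rw [← map_pow, sqr_sq]), AlgEquiv.mul_apply,
    AlgEquiv.mul_apply, AlgEquiv.aut_inv, AlgEquiv.symm_apply_eq]

theorem scale (x : Om) {c : Om} {h : Ga} (hc : c ≠ 0) (e : h c = c) :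
    kch (x * c ^ 2) h = kch x h := by
  refine ext2 ?_
  rw [ksq h (z := sqr x * c) (by rw [mul_pow, sqr_sq]), k0, map_mul, e, mul_left_inj' hc]

theorem coe_smul (h : Ga) (x : OO) : ((h • x : OO) : Om) = h x := rfl

/-- an integral square root -/
theorem exists_root (a : OO) : ∃ z : OO, z ^ 2 = a :=
  ⟨⟨sqr a, IsIntegral.of_pow two_pos (by rw [sqr_sq]; exact a.2)⟩, Subtype.ext (sqr_sq a)⟩

theorem kz {a z : OO} (h : Ga) (hz : z ^ 2 = a) : kch (a : Om) h = 0 ↔ h • z = z :=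
  (ksq h (z := (z : Om)) (congrArg Subtype.val hz)).trans ⟨fun e => Subtype.ext e, congrArg Subtype.val⟩

theorem pz {a z : OO} {h : Ga} (hz : z ^ 2 = a) (e : h a = a) : h • z = z ∨ h • z = -z :=
  (pm (z := (z : Om)) (congrArg Subtype.val hz) e).imp Subtype.ext Subtype.ext

section loc
variable {L : IntermediateField ℚ Om} [NumberField L] {Q : Ideal OO} {w : Pr L 2}

omit [NumberField L] in
theorem fixL {h : Ga} (hh : h ∈ L.fixingSubgroup) (x : L) : h x = x :=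
  (IntermediateField.mem_fixingSubgroup_iff _ _).1 hh x x.2

omit [NumberField L] in
theorem scaleL (x : L) {c : L} {h : Ga} (hc : c ≠ 0) (hh : h ∈ L.fixingSubgroup) :
    kch ((x * c ^ 2 : L) : Om) h = kch (x : Om) h :=
  scale x (fun e => hc (Subtype.ext e)) (fixL hh c)

theorem q0 {x : L} : qv w.1 x = 0 ↔ ∃ z : L, w.1.valuation L (x - z ^ 2) < 1 := by
  unfold qv
  split_ifs with e <;> simp [e]

theorem q_scale (x : L) {c : L} (hc : w.1.valuation L c = 1) : qv w.1 (x * c ^ 2) = qv w.1 x := by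
  have c0 : c ≠ 0 := fun e => by simp [e] at hc
  refine ext2 ?_
  rw [q0, q0]
  refine ⟨fun ⟨z, h⟩ => ⟨z / c, ?_⟩, fun ⟨z, h⟩ => ⟨z * c, ?_⟩⟩
  · rwa [show x - (z / c) ^ 2 = (x * c ^ 2 - z ^ 2) / c ^ 2 by field_simp, map_div₀, map_pow, hc,
      one_pow, div_one]
  · rwa [mul_pow, ← sub_mul, map_mul, map_pow, hc, one_pow, mul_one]

theorem q_int (a : 𝓞 L) : qv w.1 (a : L) = 0 ↔ IsSquare (Ideal.Quotient.mk w.1.asIdeal a) := by
  rw [q0]
  refine ⟨fun ⟨z, h⟩ => ?_, fun ⟨b, h⟩ => ?_⟩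
  · have h1 : w.1.valuation L z ≤ 1 := by
      have : w.1.valuation L (z ^ 2) ≤ 1 := by
        rw [show z ^ 2 = a - (a - z ^ 2) by ring]
        exact Valuation.map_sub_le _ (val_le_one _ a) h.le
      rwa [map_pow, pow_le_one_iff_of_nonneg zero_le two_ne_zero] at this
    obtain ⟨b, hb⟩ := w.1.exists_valuation_sub_lt_of_integer h1 1
    refine ⟨Ideal.Quotient.mk _ b, ?_⟩
    rw [← map_mul, Ideal.Quotient.eq, ← val_lt_one_iff]
    have e : ((a - b * b : 𝓞 L) : L) = (a - z ^ 2) - (b - z) * (b + z) := by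
      push_cast
      ring
    rw [e]
    refine Valuation.map_sub_lt _ h ?_
    rw [map_mul]
    exact mul_lt_one_of_nonneg_of_lt_one_left zero_le hb
      (Valuation.map_add_le _ (val_le_one _ b) h1)
  · obtain ⟨b, rfl⟩ := Ideal.Quotient.mk_surjective b
    rw [← map_mul, Ideal.Quotient.eq, ← val_lt_one_iff] at h
    exact ⟨b, by simpa [sq] using h⟩

/-- an integral representative modulo squares -/
theorem exists_int {y : L} (hy : w.1.valuation L y = 1) : ∃ (a : 𝓞 L) (c : L), a ∉ w.1.asIdeal ∧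
    w.1.valuation L c = 1 ∧ y * c ^ 2 = a := by
  obtain ⟨n, d, e⟩ := w.1.exists_primeCompl_mul_eq_of_integer y hy.le
  have hd := (val_eq_one_iff w.1 d.1).2 d.2
  have e' : y * (d.1 : L) ^ 2 = (n * d.1 : 𝓞 L) := by
    push_cast
    rw [sq, ← mul_assoc]
    exact congrArg (· * _) e
  refine ⟨n * d.1, d.1, (val_eq_one_iff _ _).1 ?_, hd, e'⟩
  rw [← e', map_mul, map_pow, hy, hd, one_pow, mul_one]

theorem two_root (hQ : Q.IsMaximal) (ov : Ov L Q w.1) {a : 𝓞 L} (ha : a ∉ w.1.asIdeal) {z : OO}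
    (hz : z ^ 2 = algebraMap (𝓞 L) OO a) : 2 * z ∉ Q := fun h => by
  rcases hQ.isPrime.mem_or_mem h with h | h
  · exact w.2 ((ov _).2 (by rw [map_natCast]; exact h))
  · exact ha ((ov _).2 (hz ▸ Q.pow_mem_of_mem h 2 two_pos))

theorem frb (y : Un L) (F : Ga) (hQ : Q.IsMaximal) (ov : Ov L Q w.1) (hy : ord w.1 y = 0)
    (hF : F ∈ L.fixingSubgroup) (fb : Fb Q (Ideal.absNorm w.1.asIdeal) F) :
    kch (y.val : Om) F = qv w.1 y.val := by
  obtain ⟨a, c, ha, hc, e⟩ := exists_int ((ord_eq_zero_iff _ _).1 hy)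
  rw [← scaleL y.val (c := c) (fun e => by simp [e] at hc) hF, ← q_scale y.val hc, e]
  obtain ⟨z, hz⟩ := exists_root (algebraMap (𝓞 L) OO a)
  have h2 := two_root hQ ov ha hz
  have := w.1.isMaximal
  let := Ideal.Quotient.field w.1.asIdeal
  have : Finite (𝓞 L ⧸ w.1.asIdeal) := Ideal.finiteQuotientOfFreeOfNeBot _ w.1.ne_bot
  let := Fintype.ofFinite (𝓞 L ⧸ w.1.asIdeal)
  have hc : ringChar (𝓞 L ⧸ w.1.asIdeal) ≠ 2 := fun e => w.2 (by
    rw [← Ideal.Quotient.eq_zero_iff_mem, map_natCast, ringChar.spec, e])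
  have a0 : Ideal.Quotient.mk w.1.asIdeal a ≠ 0 := fun e => ha (Ideal.Quotient.eq_zero_iff_mem.1 e)
  have h3 := fb z
  rw [Ideal.absNorm_apply, Submodule.cardQuot_apply, Nat.card_eq_fintype_card,
    ← Nat.div_add_mod (Fintype.card _) 2, FiniteField.odd_card_of_char_ne_two hc, pow_succ, pow_mul,
    hz] at h3
  refine ext2 (Iff.trans (kz F hz) ?_)
  rw [q_int, FiniteField.isSquare_iff hc a0]
  refine ⟨fun e => (FiniteField.pow_dichotomy hc a0).resolve_right fun e' => h2 ?_, fun e => ?_⟩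
  · rw [eq_neg_iff_add_eq_zero, ← map_pow, ← map_one (Ideal.Quotient.mk w.1.asIdeal), ← map_add,
      Ideal.Quotient.eq_zero_iff_mem, ov, map_add, map_pow, map_one] at e'
    convert add_mem h3 (Q.mul_mem_right z e') using 1
    rw [e]
    ring
  · rw [← map_pow, ← map_one (Ideal.Quotient.mk w.1.asIdeal), Ideal.Quotient.eq, ov, map_sub,
      map_pow, map_one] at e
    refine (pz hz (fixL hF a)).resolve_right fun e' => h2 ?_
    convert neg_mem (add_mem h3 (Q.mul_mem_right z e)) using 1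
    rw [e']
    ring

theorem unr (y : Un L) (h : Ga) (hQ : Q.IsMaximal) (ov : Ov L Q w.1) (hy : Even (ord w.1 y))
    (hh : h ∈ L.fixingSubgroup) (hi : In Q h) : kch (y.val : Om) h = 0 := by
  obtain ⟨k, hk⟩ := hy
  obtain ⟨π, hπ⟩ := w.1.valuation_exists_uniformizer L
  have π0 : π ≠ 0 := fun e => WithZero.exp_ne_zero (hπ.symm.trans (by rw [e, map_zero]))
  obtain ⟨a, c, ha, hc, e⟩ := exists_int (w := w) (y := y.val * (π ^ (-k)) ^ 2) (by
    rw [map_mul, map_pow, map_zpow₀, hπ, val_eq_exp, hk, ← WithZero.exp_zsmul, ← WithZero.exp_nsmul,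
      ← WithZero.exp_add, ← WithZero.exp_zero]
    congr 1
    simp [two_mul])
  rw [← scaleL y.val (zpow_ne_zero (-k) π0) hh, ← scaleL _ (c := c) (fun e => by simp [e] at hc) hh,
    e]
  obtain ⟨z, hz⟩ := exists_root (algebraMap (𝓞 L) OO a)
  refine (kz h hz).2 ((pz hz (fixL hh a)).resolve_right fun e' => two_root hQ ov ha hz ?_)
  convert neg_mem (hi z) using 1
  rw [e']
  ring

/-- the equation of Artin and Schreier -/
theorem art {x : Om} {c : OO} {h : Ga} (e : x = 1 + 4 * c) (hx : h x = x) (hk : kch x h ≠ 0) :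
    ∃ t : OO, t * (t - 1) = c ∧ h • t = 1 - t := by
  have h1 : (1 + sqr x) / 2 * ((1 + sqr x) / 2 - 1) = c := by
    linear_combination (1 / 4 : Om) * sqr_mul x + (1 / 4 : Om) * e
  refine ⟨⟨(1 + sqr x) / 2, isIntegral_trans (A := OO) _ ⟨X ^ 2 - (X + C c), ?_, ?_⟩⟩,
    Subtype.ext h1, Subtype.ext ?_⟩
  · monicity!
  · simp only [eval₂_sub, eval₂_add, eval₂_X_pow, eval₂_X, eval₂_C]
    linear_combination h1
  · change h ((1 + sqr x) / 2) = 1 - (1 + sqr x) / 2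
    rw [map_div₀, map_add, map_one, map_ofNat, (pm (sqr_sq x) hx).resolve_left fun e => hk (k0.2 e)]
    ring

theorem ray {y : Un L} {m : ℕ} (hy : y ∈ Ray L 2 (m + 2)) : ∃ (s : L) (j u : OO), s ≠ 0 ∧
    ((y.val * s ^ 2 : L) : Om) = 1 + 4 * (2 * j + 2 ^ m * u : OO) := by
  obtain ⟨u, ⟨s, hs, hu⟩, e⟩ := (mem_Ray_iff two_ne_zero (by omega)).1 hy
  obtain ⟨j, hj⟩ : ∃ j : ℕ, s ^ 2 = 1 + 8 * j := by
    obtain ⟨k, rfl⟩ := Nat.coprime_two_right.1 hs
    obtain ⟨j, hj⟩ := Nat.even_mul_succ_self k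
    exact ⟨j, by linear_combination 4 * hj⟩
  have s0 : s ≠ 0 := by
    rintro rfl
    simp at hs
  obtain ⟨v, e2⟩ : ∃ v : OO, (v : Om) = s * u := ⟨algebraMap (𝓞 L) OO ⟨_, hu⟩, rfl⟩
  refine ⟨s, j, s * v, Nat.cast_ne_zero.2 s0, ?_⟩
  have e1 : (s : Om) ^ 2 = 1 + 8 * j := by exact_mod_cast hj
  change ((y.val * s ^ 2 : L) : Om) = 1 + 4 * (2 * j + 2 ^ m * (s * v))
  rw [e, e2]
  push_cast
  rw [show ((2 : L) : Om) = 2 from rfl]
  linear_combination e1

theorem two (y : Un L) (h : Ga) (hQ : Q.IsMaximal) (h2 : (2 : OO) ∈ Q)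
    (hh : h ∈ L.fixingSubgroup) : (y ∈ Ray L 2 2 → In Q h → kch (y.val : Om) h = 0) ∧
    (y ∈ Ray L 2 3 → Dc Q h → kch (y.val : Om) h = 0) := by
  have h1 : (1 : OO) ∉ Q := fun e => hQ.ne_top ((Ideal.eq_top_iff_one _).2 e)
  refine ⟨fun hy hi => ?_, fun hy hd => ?_⟩
  · obtain ⟨s, j, u, s0, e⟩ := ray (m := 0) hy
    rw [← scaleL _ s0 hh]
    by_contra hk
    obtain ⟨t, -, e2⟩ := art e (fixL hh _) hk
    refine h1 ?_
    convert add_mem (hi t) (Q.mul_mem_right t h2) using 1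
    rw [e2]
    ring
  · obtain ⟨s, j, u, s0, e⟩ := ray (m := 1) hy
    rw [← scaleL _ s0 hh]
    by_contra hk
    obtain ⟨t, e1, e2⟩ := art e (fixL hh _) hk
    have h3 := hd t
    rw [e2] at h3
    have h4 : t ∈ Q := by
      rcases hQ.isPrime.mem_or_mem (x := t) (y := t - 1) (by
        rw [e1, pow_one]
        exact add_mem (Q.mul_mem_right _ h2) (Q.mul_mem_right _ h2)) with h5 | h5
      · exact h5
      · exact h3.1 (by simpa using neg_mem h5)
    simpa using h1 (by simpa using add_mem (h3.2 h4) h4)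

end loc

theorem opn (L : IntermediateField ℚ Om) (y : Om) (hL : Op L.fixingSubgroup) (hy : y ∈ L) :
    ∃ U, Op U ∧ U ≤ L.fixingSubgroup ∧ ∀ (g : Ga), ∀ u ∈ U, kch y (g⁻¹ * u * g) = 0 := by
  have hm : ∀ u : Ga, u ∈ L.fixingSubgroup ⊓ (⨅ g : Ga, MulAction.stabilizer Ga (g (sqr y))) ↔
      u ∈ L.fixingSubgroup ∧ ∀ g : Ga, u (g (sqr y)) = g (sqr y) := fun u => by
    simp [Subgroup.mem_iInf]
  refine ⟨L.fixingSubgroup ⊓ ⨅ g : Ga, MulAction.stabilizer Ga (g (sqr y)),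
    ⟨⟨fun u hu n => ?_⟩, ?_, fun h => ?_⟩, inf_le_left, fun g u hu => ?_⟩
  · rw [hm] at hu ⊢
    refine ⟨hL.1.conj_mem u hu.1 n, fun g => ?_⟩
    have := hu.2 (n⁻¹ * g)
    rw [AlgEquiv.mul_apply] at this
    rw [AlgEquiv.mul_apply, AlgEquiv.mul_apply, this, AlgEquiv.aut_inv, AlgEquiv.apply_symm_apply]
  · have hi : IsIntegral ℚ (sqr y) := Algebra.IsIntegral.isIntegral _
    have hf : (Set.range fun g : Ga => g (sqr y)).Finite :=
      ((minpoly ℚ (sqr y)).rootSet_finite Om).subset (by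
        rintro _ ⟨g, rfl⟩
        rw [mem_rootSet_of_ne (minpoly.ne_zero hi), aeval_algEquiv]
        simp)
    rw [Subgroup.coe_inf, Subgroup.coe_iInf]
    refine hL.2.1.inter ?_
    rw [← Set.biInter_range (g := fun z => (MulAction.stabilizer Ga z : Set Ga))]
    exact hf.isOpen_biInter fun z _ => stabilizer_isOpen_of_isIntegral z
  · obtain ⟨k, hk⟩ := hL.2.2 h
    refine ⟨k + 1, ?_⟩
    rw [pow_succ, pow_mul, hm]
    refine ⟨pow_mem hk 2, fun g => ?_⟩
    have e := (IntermediateField.mem_fixingSubgroup_iff _ _).1 (hL.1.conj_mem' _ hk g) y hy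
    rw [AlgEquiv.mul_apply, AlgEquiv.mul_apply, AlgEquiv.aut_inv, AlgEquiv.symm_apply_eq] at e
    rw [sq, AlgEquiv.mul_apply]
    rcases pm (z := g (sqr y)) (by rw [← map_pow, sqr_sq]) e with a | a
    · rw [a, a]
    · rw [a, map_neg, a, neg_neg]
  · rw [cnj, ksq u (z := g (sqr y)) (by rw [← map_pow, sqr_sq])]
    exact ((hm u).1 hu).2 g

end KUM

theorem rowKUM : OfKUM := fun _ =>
  { mul := KUM.mul
    mul' := KUM.mul'
    sq := fun _ _ h hz _ => KUM.ksq h hz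
    cnj := fun x g h _ => KUM.cnj x g h
    frb := fun _ _ _ _ => KUM.frb
    unr := fun _ _ _ _ => KUM.unr
    two := fun _ _ _ => KUM.two
    opn := fun L _ => KUM.opn L }

end Pool.Agent.MP_1246c0_nt.H25
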