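import Pool.Agent.MP_1246c0_nt.H25.SpecR
import Pool.Agent.MP_1246c0_nt.H46.MOM

/-! The moment estimate for the pencil with a set of summation. -/

namespace Pool.Agent.MP_1246c0_nt.H25

open Polynomial Finset Matrix
open Pool.Agent.MP_1246c0_nt.H12 Pool.Agent.MP_1246c0_nt.H12.MOM

namespace MOO

variable {Λ ι G : Type} [CommRing Λ] [Fintype ι] [DecidableEq ι] [AddCommGroup G] [Module Λ G]

theorem slo_iff {st : Λ →+* Λ} {B F : Finset ι} {H : Matrix ι ι Λ} (hH : H ∈ Hs st B F)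
    (S : Matrix ι ι Λ) (c : ι → Λ) (P O : Finset ι) (b : Bool) (u : Module.End Λ G)
    (g : ι → G) : Slo (S + H) c P O b u g ↔
      ((∀ l, l ∉ B → ap S (xv P b u g) l = rvo P O b u g l) ∧ ∑ l, c l • xv P b u g l = 0) ∧
      ∀ l ∈ B, ap H (xv P b u g) l = rvo P O b u g l - ap S (xv P b u g) l := by
  unfold Slo
  constructor
  · rintro ⟨h1, h2⟩
    refine ⟨⟨fun l hl => ?_, h2⟩, fun l _ => ?_⟩
    · have := h1 l
      rwa [ap_add, ap_off hH _ hl, add_zero] at this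
    · rw [← h1 l, ap_add, add_sub_cancel_left]
  · rintro ⟨⟨h1, h2⟩, h3⟩
    refine ⟨fun l => ?_, h2⟩
    by_cases hl : l ∈ B
    · rw [ap_add, h3 l hl, add_sub_cancel]
    · rw [ap_add, ap_off hH _ hl, add_zero, h1 l hl]

end MOO

open MOO in
theorem rowMOO : OfMOO := by
  intro hA hQ hCR hROB hML hNS Λ ι G _ _ _ _ _ _ _ st au τ N S c B P O J b m z γ u hL hO hF hG
  classical
  have : Fintype G := Fintype.ofFinite G
  have hJ : 3 * (m / 3) ≤ J.card := by
    have h1 := hO.cnt 0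
    have h2 := Finset.card_filter_le J fun l => au (c l) = 0
    omega
  obtain ⟨J1, J2, J3, s1, s2, s3, d12, d13, d23, c1, c2, c3⟩ := split3 J (m / 3) hJ
  obtain ⟨hAlt, hM⟩ := hML Λ ι G st au τ N S c B P O J b m z γ u hL hO hF hG
  have hN := hNS Λ ι G st au τ N S c B P O J b m z γ u hL hO hF hG
  rw [hA.cnt] at hN
  rw [card_eq_sum] at hM
  have hS : Ex (Hs st B B) (fun H => (Suo (S + H) c P O b u : ℝ)) =
      ∑ g : ι → G, Ex (Hs st B B) fun H => ind (Slo (S + H) c P O b u g ∧ Gen u g) :=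
    hA.cnt _ _ (Hs st B B) fun H g => Slo (S + H) c P O b u g ∧ Gen u g
  rw [hS]
  obtain ⟨a, ha⟩ : ∃ a : ℝ, a = Nat.card (Alt G st) := ⟨_, rfl⟩
  obtain ⟨D, hD⟩ : ∃ D : ℝ, D = (Nat.card G : ℝ) ^ B.card := ⟨_, rfl⟩
  have ha0 : 0 ≤ a := by rw [ha]; positivity
  have hG0 : (0 : ℝ) < Nat.card G := by rw [hG]; positivity
  have hD0 : 0 < D := by rw [hD]; positivity
  rw [← ha, ← hD, Finset.sum_mul, Finset.sum_div] at hM
  -- the pointwise comparison
  have key : ∀ g : ι → G,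
      |(Ex (Hs st B B) fun H => ind (Slo (S + H) c P O b u g ∧ Gen u g)) -
        ind ((∀ β ∈ Alt G st, ∑ l ∈ B,
          β (xv P b u g l) (rvo P O b u g l - ap S (xv P b u g) l) = 0) ∧
          (∀ l, l ∉ B → ap S (xv P b u g) l = rvo P O b u g l) ∧
          ∑ l, c l • xv P b u g l = 0) * a / D| ≤
      (ind (sp Λ g J1 ≠ ⊤) + ind (sp Λ g J2 ≠ ⊤) + ind (sp Λ g J3 ≠ ⊤)) *
        ((a + 2 ^ (2 * γ * γ)) / D) +
      Ex (Hs st B B) fun H =>
        ind ((Slo (S + H) c P O b u g ∧ Gen u g) ∧ sp Λ (xv P b u g) B ≠ ⊤) := by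
    intro g
    have p3 : 0 ≤ Ex (Hs st B B) fun H =>
        ind ((Slo (S + H) c P O b u g ∧ Gen u g) ∧ sp Λ (xv P b u g) B ≠ ⊤) :=
      ex_nonneg hA _ _ fun _ _ => ind_nonneg _
    have p0 : 0 ≤ Ex (Hs st B B) fun H => ind (Slo (S + H) c P O b u g ∧ Gen u g) :=
      ex_nonneg hA _ _ fun _ _ => ind_nonneg _
    have w0 : (0 : ℝ) ≤ (a + 2 ^ (2 * γ * γ)) / D := by positivity
    have i1 := ind_nonneg (sp Λ g J1 ≠ ⊤)
    have i2 := ind_nonneg (sp Λ g J2 ≠ ⊤)
    have i3 := ind_nonneg (sp Λ g J3 ≠ ⊤)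
    by_cases hR : sp Λ g J1 = ⊤ ∧ sp Λ g J2 = ⊤ ∧ sp Λ g J3 = ⊤
    · obtain ⟨r1, r2, r3⟩ := hR
      have hr := hROB Λ ι G st au τ N B B J1 J2 J3 (xv P b u g)
        (fun l => rvo P O b u g l - ap S (xv P b u g) l) hL Subset.rfl (s1.trans hO.sub) (s2.trans hO.sub)
        (s3.trans hO.sub) d12 d13 d23 (by rw [sp_xv hO.typ s1, r1]) (by rw [sp_xv hO.typ s2, r2])
        (by rw [sp_xv hO.typ s3, r3])
      have e1 : (Ex (Hs st B B) fun H => ind (Slo (S + H) c P O b u g ∧ Gen u g)) =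
          Ex (Hs st B B) fun H =>
            ind ((∀ l, l ∉ B → ap S (xv P b u g) l = rvo P O b u g l) ∧
              ∑ l, c l • xv P b u g l = 0) *
            ind (∀ l ∈ B, ap H (xv P b u g) l = rvo P O b u g l - ap S (xv P b u g) l) := by
        refine ex_congr hA _ _ _ fun H hH => ?_
        rw [← ind_and]
        exact ind_congr ((and_iff_left (gen_of_sp u g J1 r1)).trans (slo_iff hH S c P O b u g))
      rw [e1, hA.mul, hr, ← ha, ← hD, ind_and (∀ β ∈ Alt G st, _)]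
      have : ∀ s t : ℝ, s * (t * a / D) - t * s * a / D = 0 := fun s t => by ring
      rw [this, abs_zero]
      positivity
    · have i4 : 1 ≤ ind (sp Λ g J1 ≠ ⊤) + ind (sp Λ g J2 ≠ ⊤) + ind (sp Λ g J3 ≠ ⊤) := by
        by_cases r1 : sp Λ g J1 = ⊤
        · by_cases r2 : sp Λ g J2 = ⊤
          · have r3 : sp Λ g J3 ≠ ⊤ := fun r3 => hR ⟨r1, r2, r3⟩
            rw [ind_pos r3]; linarith
          · rw [ind_pos (p := sp Λ g J2 ≠ ⊤) r2]; linarith
        · rw [ind_pos (p := sp Λ g J1 ≠ ⊤) r1]; linarith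
      have i5 := mul_le_mul_of_nonneg_right i4 w0
      rw [one_mul] at i5
      have q0 : ∀ p : Prop, 0 ≤ ind p * a / D ∧ ind p * a / D ≤ a / D := fun p =>
        ⟨by have := ind_nonneg p; positivity,
          div_le_div_of_nonneg_right (mul_le_of_le_one_left ha0 (ind_le_one p)) hD0.le⟩
      obtain ⟨q1, q2⟩ := q0 ((∀ β ∈ Alt G st, ∑ l ∈ B,
          β (xv P b u g l) (rvo P O b u g l - ap S (xv P b u g) l) = 0) ∧
          (∀ l, l ∉ B → ap S (xv P b u g) l = rvo P O b u g l) ∧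
          ∑ l, c l • xv P b u g l = 0)
      have w1 : (a + 2 ^ (2 * γ * γ)) / D = a / D + 2 ^ (2 * γ * γ) / D := add_div _ _ _
      have w2 : (0 : ℝ) ≤ 2 ^ (2 * γ * γ) / D := by positivity
      have w3 : (0 : ℝ) ≤ a / D := by positivity
      by_cases hT : sp Λ (xv P b u g) B = ⊤
      · have hc := hCR Λ ι G st B B γ (xv P b u g)
          (fun l => rvo P O b u g l - ap S (xv P b u g) l) hL.inv Subset.rfl hG
        rw [hT, Nat.card_congr (Submodule.topEquiv (R := Λ) (M := G)).toEquiv, ← pow_add,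
          add_comm B.card, Finset.card_sdiff_add_card_eq_card Subset.rfl, ← hD] at hc
        have e1 : (Ex (Hs st B B) fun H => ind (Slo (S + H) c P O b u g ∧ Gen u g)) ≤
            Ex (Hs st B B) fun H =>
              ind (∀ l ∈ B, ap H (xv P b u g) l = rvo P O b u g l - ap S (xv P b u g) l) :=
          hA.mono _ _ _ _ fun H hH => ind_mono fun h => ((slo_iff hH S c P O b u g).1 h.1).2
        rw [abs_le]
        constructor <;> linarith
      · have e1 : (Ex (Hs st B B) fun H => ind (Slo (S + H) c P O b u g ∧ Gen u g)) =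
            Ex (Hs st B B) fun H =>
              ind ((Slo (S + H) c P O b u g ∧ Gen u g) ∧ sp Λ (xv P b u g) B ≠ ⊤) :=
          ex_congr hA _ _ _ fun H _ => ind_congr (and_iff_left hT).symm
        rw [abs_le]
        constructor <;> linarith
  -- summation
  have hsum := (Finset.abs_sum_le_sum_abs _ _).trans
    (Finset.sum_le_sum (s := Finset.univ) fun g _ => key g)
  rw [Finset.sum_sub_distrib, Finset.sum_add_distrib, ← Finset.sum_mul, Finset.sum_add_distrib,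
    Finset.sum_add_distrib] at hsum
  have n1 := cnt_ns (Λ := Λ) hQ γ hG J1
  have n2 := cnt_ns (Λ := Λ) hQ γ hG J2
  have n3 := cnt_ns (Λ := Λ) hQ γ hG J3
  rw [c1] at n1
  rw [c2] at n2
  rw [c3] at n3
  have hn : (Fintype.card G : ℝ) ^ Fintype.card ι ≤ 2 ^ (γ * z) * D := by
    rw [← Nat.card_eq_fintype_card, ← Finset.card_add_card_compl B, pow_add, ← hD, mul_comm]
    refine mul_le_mul_of_nonneg_right ?_ hD0.le
    rw [hG]
    push_cast
    rw [← pow_mul]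
    exact pow_le_pow_right₀ (by norm_num) (Nat.mul_le_mul_left _ hO.sml)
  have hw : (0 : ℝ) ≤ (a + 2 ^ (2 * γ * γ)) / D := by positivity
  have hb : (2 : ℝ) ^ (γ * γ) * ((Fintype.card G : ℝ) ^ Fintype.card ι / 2 ^ (m / 3)) ≤
      2 ^ (γ * γ) * (2 ^ (γ * z) * D / 2 ^ (m / 3)) :=
    mul_le_mul_of_nonneg_left (div_le_div_of_nonneg_right hn (by positivity)) (by positivity)
  have he : (∑ g : ι → G, ind (sp Λ g J1 ≠ ⊤) + ∑ g : ι → G, ind (sp Λ g J2 ≠ ⊤) +
      ∑ g : ι → G, ind (sp Λ g J3 ≠ ⊤)) * ((a + 2 ^ (2 * γ * γ)) / D) ≤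
      3 * (2 ^ (γ * γ) * (2 ^ (γ * z) / 2 ^ (m / 3))) * (a + 2 ^ (2 * γ * γ)) := by
    refine (mul_le_mul_of_nonneg_right
      (c := 3 * (2 ^ (γ * γ) * (2 ^ (γ * z) * D / 2 ^ (m / 3)))) (by linarith) hw).trans
      (le_of_eq ?_)
    field_simp
  have ha1 : a ≤ 2 ^ (γ * γ) := by rw [ha]; exact_mod_cast hAlt
  exact sub_le_iff_le_add'.1 ((le_abs_self _).trans (((abs_sub_le _ _ _).trans
    (add_le_add hsum le_rfl)).trans (num γ z m a _ _ _ ha0 ha1 he hN hM)))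

end Pool.Agent.MP_1246c0_nt.H25
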